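import Pool.Agent.P.MP_5f4fc7_al.TFRing

set_option autoImplicit false

namespace Pool.Agent.Results.MP_5f4fc7_al.TorsionFree

open Pool.Agent.P.MP_5f4fc7_al.TF in
/-- A finitely generated torsion-free group with trivial third derived subgroup and the maximal
condition on normal subgroups, in which every nilpotent subgroup lies properly in a nilpotent
subgroup. -/
theorem result :
    ∃ (G : Type) (_ : Group G),
      (∀ g : G, IsOfFinOrder g → g = 1) ∧ Group.FG G ∧ derivedSeries G 3 = ⊥ ∧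
      (∀ f : ℕ → Subgroup G, (∀ n, (f n).Normal) → Monotone f →
        ∃ n, ∀ m, n ≤ m → f m = f n) ∧
      (∀ H : Subgroup G, Group.IsNilpotent H →
        ∃ K : Subgroup G, Group.IsNilpotent K ∧ H < K) := by
  obtain ⟨G, _, h1, h2, h3, h4, h5⟩ := main
  refine ⟨G, inferInstance, fun g hg => ?_, h3, h2, fun f hf hm => ?_, fun H hH => ?_⟩
  · obtain ⟨n, hn, e⟩ := isOfFinOrder_iff_pow_eq_one.mp hg
    exact h1 g n hn e
  · obtain ⟨n, hn⟩ := h4 f hf hm
    exact ⟨n, fun m h => le_antisymm (fun x hx => hn m h x hx trivial) (hm h)⟩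
  · obtain ⟨K, a, b⟩ := h5 H ((nil_iff H).mpr hH)
    exact ⟨K, (nil_iff K).mp a, b⟩

end Pool.Agent.Results.MP_5f4fc7_al.TorsionFree
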